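import Pool.Agent.Run7.h100.UN.Iface

/-!
# Piece HEN of the project UN (MP_8d2e9f_nt): the Hensel part
-/

set_option autoImplicit false

namespace Run7.h646.UN

open Polynomial Run7.h100.UN

/-- the product of the differences divides the factorial -/
lemma prod_dvd (d j : ℕ) (hj : j < d) :
    (∏ i ∈ (Finset.range d).erase j, ((j : ℤ) - (i : ℤ))) ∣ ((d - 1).factorial : ℤ) := by
  have hsplit : (Finset.range d).erase j = Finset.range j ∪ Finset.Ico (j + 1) d := by
    ext x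
    simp only [Finset.mem_erase, Finset.mem_range, Finset.mem_union, Finset.mem_Ico]
    omega
  have hdisj : Disjoint (Finset.range j) (Finset.Ico (j + 1) d) := by
    rw [Finset.disjoint_left]
    intro x hx hx'
    rw [Finset.mem_range] at hx
    rw [Finset.mem_Ico] at hx'
    omega
  rw [hsplit, Finset.prod_union hdisj]
  have h1 : ∏ i ∈ Finset.range j, ((j : ℤ) - (i : ℤ)) = (j.factorial : ℤ) := by
    rw [← Finset.prod_range_reflect (fun i : ℕ => ((j : ℤ) - (i : ℤ))) j,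
      ← Finset.prod_range_add_one_eq_factorial]
    push_cast
    refine Finset.prod_congr rfl fun i hi => ?_
    rw [Finset.mem_range] at hi
    have : ((j - 1 - i : ℕ) : ℤ) = (j : ℤ) - 1 - i := by omega
    rw [this]; ring
  have h2 : ∏ i ∈ Finset.Ico (j + 1) d, ((j : ℤ) - (i : ℤ)) =
      (-1) ^ (d - (j + 1)) * ((d - (j + 1)).factorial : ℤ) := by
    rw [Finset.prod_Ico_eq_prod_range, ← Finset.prod_range_add_one_eq_factorial]
    have : ∀ t ∈ Finset.range (d - (j + 1)), ((j : ℤ) - ((j + 1 + t : ℕ) : ℤ)) = (-1) * ((t : ℤ) + 1) := by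
      intro t _
      push_cast; ring
    rw [Finset.prod_congr rfl this, Finset.prod_mul_distrib, Finset.prod_const, Finset.card_range]
    push_cast
    rfl
  rw [h1, h2]
  have h3 : (j.factorial : ℤ) * ((-1) ^ (d - (j + 1)) * ((d - (j + 1)).factorial : ℤ)) =
      (-1) ^ (d - (j + 1)) * ((j.factorial * (d - 1 - j).factorial : ℕ) : ℤ) := by
    have : d - (j + 1) = d - 1 - j := by omega
    rw [this]
    push_cast
    ring
  rw [h3]
  have hu : IsUnit ((-1 : ℤ) ^ (d - (j + 1))) := (isUnit_one.neg).pow _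
  rw [hu.mul_left_dvd]
  exact Int.natCast_dvd_natCast.mpr (Nat.factorial_mul_factorial_dvd_factorial (by omega))

theorem t_HEN : S_HEN := by
  intro p d hp f hmon hdeg hco α hα hfact σ
  classical
  set n : ℕ := (d - 1).factorial with hn
  set e := padicValNat p n with he
  have hn0 : n ≠ 0 := Nat.factorial_ne_zero _
  have hp1 : (1 : ℝ) < p := by exact_mod_cast hp.one_lt
  have hp0 : (0 : ℝ) < p := by linarith
  have hnn : ‖((n : ℕ) : ℤ_[p])‖ = (p : ℝ) ^ (-(e : ℤ)) := by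
    obtain ⟨m, hm⟩ : p ^ e ∣ n := pow_padicValNat_dvd
    have hpm : ¬ p ∣ m := by
      rintro ⟨c, hc⟩
      apply pow_succ_padicValNat_not_dvd (p := p) hn0
      rw [← he]
      exact ⟨c, by rw [pow_succ, mul_assoc, ← hc]; exact hm⟩
    have h1 : ‖((m : ℕ) : ℤ_[p])‖ = 1 :=
      PadicInt.norm_natCast_eq_one_iff.mpr ((Nat.Prime.coprime_iff_not_dvd hp).mpr hpm)
    have h2 : ((n : ℕ) : ℤ_[p]) = (p : ℤ_[p]) ^ e * (m : ℤ_[p]) := by
      exact_mod_cast congrArg (Nat.cast : ℕ → ℤ_[p]) hm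
    rw [h2, norm_mul, PadicInt.norm_p_pow, h1, mul_one]
  -- the polynomial
  set G : ℤ[X] := ∏ j ∈ Finset.range d, (X - C (j : ℤ)) with hG
  obtain ⟨g, hg⟩ : C ((p : ℤ) ^ (2 * e + 1)) ∣ f - G := (C_dvd_iff_dvd_coeff _ _).mpr hco
  have hf : f = G + C ((p : ℤ) ^ (2 * e + 1)) * g := by rw [← hg]; ring
  have hGn : G = Lagrange.nodal (Finset.range d) (fun i : ℕ => (i : ℤ)) := rfl
  have hGe : ∀ j < d, G.eval (j : ℤ) = 0 := by
    intro j hj
    rw [hG, eval_prod]
    exact Finset.prod_eq_zero (Finset.mem_range.mpr hj) (by simp)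
  have hGd : ∀ j < d, G.derivative.eval (j : ℤ) =
      ∏ i ∈ (Finset.range d).erase j, ((j : ℤ) - (i : ℤ)) := by
    intro j hj
    rw [hGn, Lagrange.eval_nodal_derivative_eval_node_eq (v := fun i : ℕ => (i : ℤ))
      (Finset.mem_range.mpr hj), Lagrange.eval_nodal]
  have hae : ∀ (h : ℤ[X]) (j : ℕ), aeval ((j : ℕ) : ℤ_[p]) h = ((h.eval (j : ℤ) : ℤ) : ℤ_[p]) := by
    intro h j
    have h1 := aeval_algebraMap_apply (ℤ_[p]) (j : ℤ) h
    simpa using h1
  have hpk : ‖((p : ℤ_[p]) ^ (2 * e + 1))‖ < ‖((n : ℕ) : ℤ_[p])‖ ^ 2 := by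
    rw [PadicInt.norm_p_pow, hnn, ← zpow_natCast, ← zpow_mul]
    apply zpow_lt_zpow_right₀ hp1
    push_cast
    omega
  have hn1 : ‖((n : ℕ) : ℤ_[p])‖ ≤ 1 := PadicInt.norm_le_one _
  -- data at `j`
  have hDn : ∀ j < d, ‖((n : ℕ) : ℤ_[p])‖ ≤ ‖((G.derivative.eval (j : ℤ) : ℤ) : ℤ_[p])‖ := by
    intro j hj
    rw [hGd j hj]
    obtain ⟨c, hc⟩ := prod_dvd d j hj
    have h1 : ((n : ℕ) : ℤ_[p]) = ((∏ i ∈ (Finset.range d).erase j, ((j : ℤ) - (i : ℤ)) : ℤ) : ℤ_[p]) *
        ((c : ℤ) : ℤ_[p]) := by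
      exact_mod_cast congrArg (Int.cast : ℤ → ℤ_[p]) hc
    rw [h1, norm_mul]
    exact mul_le_of_le_one_right (norm_nonneg _) (PadicInt.norm_le_one _)
  have hval : ∀ j < d, ‖aeval ((j : ℕ) : ℤ_[p]) f‖ ≤ ‖((p : ℤ_[p]) ^ (2 * e + 1))‖ := by
    intro j hj
    rw [hae, hf, eval_add, hGe j hj, zero_add, eval_mul, eval_C]
    push_cast
    rw [norm_mul]
    exact mul_le_of_le_one_right (norm_nonneg _) (PadicInt.norm_le_one _)
  have hder : ∀ j < d, ‖aeval ((j : ℕ) : ℤ_[p]) f.derivative‖ =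
      ‖((G.derivative.eval (j : ℤ) : ℤ) : ℤ_[p])‖ := by
    intro j hj
    have h1 : ‖(((p : ℤ) ^ (2 * e + 1) * g.derivative.eval (j : ℤ) : ℤ) : ℤ_[p])‖ <
        ‖((G.derivative.eval (j : ℤ) : ℤ) : ℤ_[p])‖ := by
      push_cast
      rw [norm_mul]
      calc _ ≤ ‖((p : ℤ_[p]) ^ (2 * e + 1))‖ :=
            mul_le_of_le_one_right (norm_nonneg _) (PadicInt.norm_le_one _)
        _ < ‖((n : ℕ) : ℤ_[p])‖ ^ 2 := hpk
        _ ≤ ‖((n : ℕ) : ℤ_[p])‖ := by
            have := norm_nonneg ((n : ℕ) : ℤ_[p])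
            nlinarith
        _ ≤ _ := hDn j hj
    rw [hae, hf, derivative_add, derivative_mul, derivative_C, zero_mul, zero_add, eval_add, eval_mul,
      eval_C, Int.cast_add, PadicInt.norm_add_eq_max_of_ne h1.ne', max_eq_left h1.le]
  -- Hensel
  have hhen : ∀ j < d, ∃ z : ℤ_[p], aeval z f = 0 ∧
      ‖z - ((j : ℕ) : ℤ_[p])‖ < ‖((G.derivative.eval (j : ℤ) : ℤ) : ℤ_[p])‖ := by
    intro j hj
    have hnorm : ‖aeval ((j : ℕ) : ℤ_[p]) f‖ < ‖aeval ((j : ℕ) : ℤ_[p]) f.derivative‖ ^ 2 := by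
      rw [hder j hj]
      refine (hval j hj).trans_lt (hpk.trans_le ?_)
      exact pow_le_pow_left₀ (norm_nonneg _) (hDn j hj) 2
    obtain ⟨z, hz1, hz2, -, -⟩ := hensels_lemma hnorm
    rw [hder j hj] at hz2
    exact ⟨z, hz1, hz2⟩
  choose! z hz1 hz2 using hhen
  -- the norm of the derivative is at most the distance
  have hdist : ∀ i < d, ∀ j < d, i ≠ j → ‖((G.derivative.eval (j : ℤ) : ℤ) : ℤ_[p])‖ ≤
      ‖((j : ℕ) : ℤ_[p]) - ((i : ℕ) : ℤ_[p])‖ := by
    intro i hi j hj hij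
    have hdv : ((j : ℤ) - (i : ℤ)) ∣ G.derivative.eval (j : ℤ) := by
      rw [hGd j hj]
      exact Finset.dvd_prod_of_mem (fun i : ℕ => (j : ℤ) - (i : ℤ))
        (Finset.mem_erase.mpr ⟨hij, Finset.mem_range.mpr hi⟩)
    obtain ⟨c, hc⟩ := hdv
    rw [hc]
    push_cast
    rw [norm_mul]
    exact mul_le_of_le_one_right (norm_nonneg _) (PadicInt.norm_le_one _)
  have hzinj : ∀ i < d, ∀ j < d, z i = z j → i = j := by
    intro i hi j hj hz
    by_contra hij
    have h1 := hz2 i hi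
    have h2 := hz2 j hj
    rw [hz] at h1
    have h3 := hdist i hi j hj hij
    have h4 := hdist j hj i hi (Ne.symm hij)
    rw [norm_sub_rev] at h4
    have e1 : ((j : ℕ) : ℤ_[p]) - ((i : ℕ) : ℤ_[p]) = (z j - (i : ℕ)) + -(z j - (j : ℕ)) := by ring
    have h5 : ‖((j : ℕ) : ℤ_[p]) - ((i : ℕ) : ℤ_[p])‖ ≤
        max ‖z j - ((i : ℕ) : ℤ_[p])‖ ‖-(z j - ((j : ℕ) : ℤ_[p]))‖ := by
      rw [e1]; exact PadicInt.nonarchimedean _ _
    rw [norm_neg] at h5
    rcases le_max_iff.mp h5 with h | h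
    · exact absurd (h1.trans_le h4) (not_lt.mpr h)
    · exact absurd (h2.trans_le h3) (not_lt.mpr h)
  -- roots in the algebraic closure
  let φ : ℤ_[p] →+* AlgebraicClosure ℚ_[p] :=
    (algebraMap ℚ_[p] (AlgebraicClosure ℚ_[p])).comp PadicInt.Coe.ringHom
  have hφinj : Function.Injective φ := by
    intro a b hab
    have h1 := (algebraMap ℚ_[p] (AlgebraicClosure ℚ_[p])).injective hab
    exact Subtype.ext h1
  set fK : (AlgebraicClosure ℚ_[p])[X] := f.map (Int.castRingHom _) with hfK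
  have hfK0 : fK ≠ 0 := (hmon.map _).ne_zero
  have hfKd : fK.natDegree = d := by rw [hfK, hmon.natDegree_map, hdeg]
  have hroot : ∀ j < d, fK.IsRoot (φ (z j)) := by
    intro j hj
    have h1 := hz1 j hj
    rw [IsRoot, hfK, eval_map]
    have h2 : eval₂ (Int.castRingHom (AlgebraicClosure ℚ_[p])) (φ (z j)) f = φ (aeval (z j) f) := by
      rw [aeval_def, hom_eval₂]
      congr 1
    rw [h2, h1, map_zero]
  have hσ : fK.IsRoot (σ α) := by
    rw [IsRoot, hfK, eval_map]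
    have h2 : eval₂ (Int.castRingHom (AlgebraicClosure ℚ_[p])) (σ α) f = σ (aeval α f) := by
      rw [aeval_def, hom_eval₂]
      congr 1
      exact RingHom.ext_int _ _
    rw [h2, hα, map_zero]
  by_cases hin : ∃ j < d, σ α = φ (z j)
  · obtain ⟨j, -, hj⟩ := hin
    exact ⟨((z j : ℤ_[p]) : ℚ_[p]), hj⟩
  · exfalso
    push Not at hin
    let S : Finset (AlgebraicClosure ℚ_[p]) := insert (σ α) ((Finset.range d).image fun j => φ (z j))
    have hcard : S.card = d + 1 := by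
      rw [Finset.card_insert_of_notMem, Finset.card_image_of_injOn, Finset.card_range]
      · intro i hi j hj hij
        simp only [Finset.coe_range, Set.mem_Iio] at hi hj
        exact hzinj i hi j hj (hφinj hij)
      · rw [Finset.mem_image]
        rintro ⟨j, hj, hj'⟩
        exact hin j (Finset.mem_range.mp hj) hj'.symm
    have hsub : S ⊆ fK.roots.toFinset := by
      intro x hx
      rw [Multiset.mem_toFinset, mem_roots hfK0]
      rcases Finset.mem_insert.mp hx with rfl | hx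
      · exact hσ
      · obtain ⟨j, hj, rfl⟩ := Finset.mem_image.mp hx
        exact hroot j (Finset.mem_range.mp hj)
    have h1 := Finset.card_le_card hsub
    have h2 := Multiset.toFinset_card_le fK.roots
    have h3 := fK.card_roots'
    omega

end Run7.h646.UN
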